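import Pool.Agent.Run7.h356.LP.Stm

/-!
# Project LP (helper356), piece CHG: the change of variables `t = s^{1/p} h(e^{iφ})`
-/

set_option autoImplicit false

noncomputable section

open MeasureTheory Filter Topology Set
open scoped BigOperators ENNReal

namespace Run7.h760.LP

open H712MA H356LP

lemma norm_ee (φ : ℝ) : ‖ee φ‖ = 1 := by
  unfold ee
  exact Complex.norm_exp_ofReal_mul_I φ

lemma ee_ne (φ : ℝ) : ee φ ≠ 0 := by
  unfold ee
  exact Complex.exp_ne_zero _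

lemma ee_inj {φ ψ : ℝ} (h1 : φ ∈ Ioo (-Real.pi) Real.pi) (h2 : ψ ∈ Ioo (-Real.pi) Real.pi) (h : ee φ = ee ψ) :
    φ = ψ := by
  unfold ee at h
  have h3 := Complex.exp_inj_of_neg_pi_lt_of_le_pi (x := φ * Complex.I) (y := ψ * Complex.I)
    (by simpa using h1.1) (by simpa using h1.2.le) (by simpa using h2.1) (by simpa using h2.2.le) h
  have h4 : (φ : ℂ) = ψ := mul_right_cancel₀ Complex.I_ne_zero h3
  exact_mod_cast h4

/-- the map in real coordinates -/
def fT (D : Disc) (p : ℝ) (x : ℝ × ℝ) : ℝ × ℝ :=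
  (x.1 ^ (1 / p) * (D.h (ee x.2)).re, x.1 ^ (1 / p) * (D.h (ee x.2)).im)

lemma fT_complex (D : Disc) (p : ℝ) (x : ℝ × ℝ) :
    (⟨(fT D p x).1, (fT D p x).2⟩ : ℂ) = ((x.1 ^ (1 / p) : ℝ) : ℂ) * D.h (ee x.2) := by
  apply Complex.ext
  · simp [fT]
  · simp [fT]

/-- its derivative -/
def dT (D : Disc) (p : ℝ) (x : ℝ × ℝ) : ℝ × ℝ →L[ℝ] ℝ × ℝ :=
  LinearMap.toContinuousLinearMap (Matrix.toLin (Module.Basis.finTwoProd ℝ) (Module.Basis.finTwoProd ℝ)
    !![(D.h (ee x.2)).re * (1 / p * x.1 ^ (1 / p - 1)), x.1 ^ (1 / p) * (Complex.I * ee x.2 * D.hd (ee x.2)).re;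
      (D.h (ee x.2)).im * (1 / p * x.1 ^ (1 / p - 1)), x.1 ^ (1 / p) * (Complex.I * ee x.2 * D.hd (ee x.2)).im])

lemma hasFDerivAt_fT (D : Disc) (p : ℝ) (x : ℝ × ℝ) (hx : 0 < x.1) : HasFDerivAt (fT D p) (dT D p x) x := by
  have h1 : HasDerivAt (fun s : ℝ => s ^ (1 / p)) (1 / p * x.1 ^ (1 / p - 1)) x.1 :=
    Real.hasDerivAt_rpow_const (Or.inl hx.ne')
  have hre : HasDerivAt (fun φ : ℝ => (D.h (ee φ)).re) (Complex.I * ee x.2 * D.hd (ee x.2)).re x.2 :=
    (Complex.reCLM.hasFDerivAt.comp_hasDerivAt x.2 (D.derb x.2))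
  have him : HasDerivAt (fun φ : ℝ => (D.h (ee φ)).im) (Complex.I * ee x.2 * D.hd (ee x.2)).im x.2 :=
    (Complex.imCLM.hasFDerivAt.comp_hasDerivAt x.2 (D.derb x.2))
  have hf : HasFDerivAt (fun x : ℝ × ℝ => x.1 ^ (1 / p)) ((1 / p * x.1 ^ (1 / p - 1)) • ContinuousLinearMap.fst ℝ ℝ ℝ) x :=
    h1.comp_hasFDerivAt x hasFDerivAt_fst
  have hr : HasFDerivAt (fun x : ℝ × ℝ => (D.h (ee x.2)).re) ((Complex.I * ee x.2 * D.hd (ee x.2)).re • ContinuousLinearMap.snd ℝ ℝ ℝ) x :=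
    hre.comp_hasFDerivAt x hasFDerivAt_snd
  have hi : HasFDerivAt (fun x : ℝ × ℝ => (D.h (ee x.2)).im) ((Complex.I * ee x.2 * D.hd (ee x.2)).im • ContinuousLinearMap.snd ℝ ℝ ℝ) x :=
    him.comp_hasFDerivAt x hasFDerivAt_snd
  unfold dT
  rw [Matrix.toLin_finTwoProd_toContinuousLinearMap]
  have h2 := (hf.mul hr).prodMk (hf.mul hi)
  refine h2.congr_fderiv ?_
  ext <;> simp

lemma det_dT (D : Disc) (p : ℝ) (x : ℝ × ℝ) (hx : 0 < x.1) :
    (dT D p x).det = 1 / p * x.1 ^ (2 / p - 1) * D.B (ee x.2) := by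
  unfold dT
  rw [LinearMap.det_toContinuousLinearMap, LinearMap.det_toLin, Matrix.det_fin_two_of]
  have h1 : x.1 ^ (2 / p - 1) = x.1 ^ (1 / p - 1) * x.1 ^ (1 / p) := by
    rw [← Real.rpow_add hx]
    congr 1
    ring
  rw [h1]
  unfold Disc.B
  simp only [Complex.mul_re, Complex.mul_im, Complex.I_re, Complex.I_im, Complex.conj_re, Complex.conj_im]
  ring

theorem CHG (h1 : S_VVV) : S_CHG := by
  intro D p k hp1 hp2 hk
  have hp0 : 0 < p := by linarith
  obtain ⟨-, v2, v3, v4, v5, v6, -⟩ := h1 D p hp0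
  have hB : ∀ z : ℂ, ‖z‖ = 1 → 0 < D.B z := by
    intro z hz
    apply D.star z hz.le
    intro h0
    rw [h0, norm_zero] at hz
    exact zero_ne_one hz
  have hBcont : ContinuousOn D.B (Metric.closedBall 0 1) := by
    unfold Disc.B
    apply Complex.continuous_re.comp_continuousOn
    exact (continuousOn_id.mul D.contd).mul (Complex.continuous_conj.comp_continuousOn D.cont)
  have hmaps : MapsTo (D.ze p) ({0}ᶜ : Set ℂ) (Metric.closedBall 0 1) := by
    intro t ht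
    rw [mem_closedBall_zero_iff]
    exact (v5 t ht).2.1.le
  have hrc : ContinuousOn (D.rho p k) ({0}ᶜ : Set ℂ) := by
    have h2 : ContinuousOn (fun t : ℂ => k * p * D.V p t ^ (1 - 2 / p) / D.B (D.ze p t)) ({0}ᶜ : Set ℂ) := by
      apply ContinuousOn.div
      · apply ContinuousOn.mul continuousOn_const
        apply ContinuousOn.rpow_const v2.continuousOn
        intro t ht
        exact Or.inl (v5 t ht).1.ne'
      · exact hBcont.comp v6 hmaps
      · intro t ht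
        exact (hB _ (v5 t ht).2.1).ne'
    refine h2.congr ?_
    intro t ht
    have ht' : t ≠ 0 := ht
    unfold Disc.rho
    rw [if_neg ht']
  have hrm : Measurable (D.rho p k) := measurable_of_continuousOn_compl_singleton 0 hrc
  refine ⟨hrm, ?_, ?_⟩
  · intro t
    unfold Disc.rho
    by_cases ht : t = 0
    · rw [if_pos ht]
    · rw [if_neg ht]
      have h2 := hB _ (v5 t ht).2.1
      have h3 := v3 t
      positivity
  · intro G hG
    obtain ⟨A, hA⟩ : ∃ A : Set (ℝ × ℝ), A = Ioi (0 : ℝ) ×ˢ Ioo (-Real.pi) Real.pi := ⟨_, rfl⟩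
    have hAm : MeasurableSet A := by
      rw [hA]
      exact measurableSet_Ioi.prod measurableSet_Ioo
    have hAx : ∀ x ∈ A, 0 < x.1 ∧ x.2 ∈ Ioo (-Real.pi) Real.pi := by
      intro x hx
      rw [hA] at hx
      exact ⟨hx.1, hx.2⟩
    have hTne : ∀ x ∈ A, ((x.1 ^ (1 / p) : ℝ) : ℂ) * D.h (ee x.2) ≠ 0 := by
      intro x hx h0
      have h2 : 0 < x.1 ^ (1 / p) := Real.rpow_pos_of_pos (hAx x hx).1 _
      rcases mul_eq_zero.1 h0 with h | h
      · rw [Complex.ofReal_eq_zero] at h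
        exact h2.ne' h
      · have h3 := hB (ee x.2) (norm_ee _)
        unfold Disc.B at h3
        rw [h] at h3
        simp at h3
    have hhc : Continuous (fun φ : ℝ => D.h (ee φ)) :=
      continuous_iff_continuousAt.2 fun φ => (D.derb φ).continuousAt
    have hTm : Measurable (fun x : ℝ × ℝ => ((x.1 ^ (1 / p) : ℝ) : ℂ) * D.h (ee x.2)) := by
      apply Measurable.mul
      · exact Complex.measurable_ofReal.comp (measurable_fst.pow_const _)
      · exact hhc.measurable.comp measurable_snd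
    -- the function on the plane
    obtain ⟨g, hg⟩ : ∃ g : ℂ → ℝ≥0∞, g = fun t => G t * ENNReal.ofReal (D.rho p k t) := ⟨_, rfl⟩
    have hc : ∫⁻ t : ℂ, g t = ∫⁻ y : ℝ × ℝ, g ⟨y.1, y.2⟩ := by
      have h2 := (Complex.volume_preserving_equiv_real_prod.symm Complex.measurableEquivRealProd).lintegral_comp_emb
        Complex.measurableEquivRealProd.symm.measurableEmbedding g
      exact h2.symm
    have hinj : InjOn (fT D p) A := by
      intro x hx x' hx' h
      have h2 : ((x.1 ^ (1 / p) : ℝ) : ℂ) * D.h (ee x.2) = ((x'.1 ^ (1 / p) : ℝ) : ℂ) * D.h (ee x'.2) := by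
        rw [← fT_complex, ← fT_complex, h]
      obtain ⟨e1, e2⟩ := v4 x.1 (ee x.2) (hAx x hx).1 (norm_ee _)
      obtain ⟨e3, e4⟩ := v4 x'.1 (ee x'.2) (hAx x' hx').1 (norm_ee _)
      rw [h2] at e1 e2
      apply Prod.ext
      · exact e1.symm.trans e3
      · exact ee_inj (hAx x hx).2 (hAx x' hx').2 (e2.symm.trans e4)
    have hkey : ∀ x ∈ A, ENNReal.ofReal k * G (((x.1 ^ (1 / p) : ℝ) : ℂ) * D.h (ee x.2)) =
        ENNReal.ofReal |(dT D p x).det| * g ⟨(fT D p x).1, (fT D p x).2⟩ := by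
      intro x hx
      obtain ⟨hx1, hx2⟩ := hAx x hx
      rw [fT_complex, hg]
      simp only
      have h2 := hB (ee x.2) (norm_ee _)
      obtain ⟨e1, e2⟩ := v4 x.1 (ee x.2) hx1 (norm_ee _)
      have hdet : 0 < (dT D p x).det := by
        rw [det_dT D p x hx1]
        have := Real.rpow_pos_of_pos hx1 (2 / p - 1)
        positivity
      have h3 : D.rho p k (((x.1 ^ (1 / p) : ℝ) : ℂ) * D.h (ee x.2)) = k * p * x.1 ^ (1 - 2 / p) / D.B (ee x.2) := by
        unfold Disc.rho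
        rw [if_neg (hTne x hx), e1, e2]
      have h4 : (dT D p x).det * D.rho p k (((x.1 ^ (1 / p) : ℝ) : ℂ) * D.h (ee x.2)) = k := by
        rw [h3, det_dT D p x hx1]
        have h5 : x.1 ^ (2 / p - 1) * x.1 ^ (1 - 2 / p) = 1 := by
          rw [← Real.rpow_add hx1]
          have : 2 / p - 1 + (1 - 2 / p) = 0 := by ring
          rw [this, Real.rpow_zero]
        calc 1 / p * x.1 ^ (2 / p - 1) * D.B (ee x.2) * (k * p * x.1 ^ (1 - 2 / p) / D.B (ee x.2)) =
            (x.1 ^ (2 / p - 1) * x.1 ^ (1 - 2 / p)) * k := by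
              field_simp
          _ = k := by rw [h5, one_mul]
      rw [abs_of_pos hdet]
      calc ENNReal.ofReal k * G (((x.1 ^ (1 / p) : ℝ) : ℂ) * D.h (ee x.2)) =
          ENNReal.ofReal ((dT D p x).det * D.rho p k (((x.1 ^ (1 / p) : ℝ) : ℂ) * D.h (ee x.2))) *
            G (((x.1 ^ (1 / p) : ℝ) : ℂ) * D.h (ee x.2)) := by rw [h4]
        _ = _ := by
            rw [ENNReal.ofReal_mul hdet.le]
            ring
    calc ENNReal.ofReal k * ∫⁻ s in Ioi (0 : ℝ), ∫⁻ φ in Ioo (-Real.pi) Real.pi,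
        G (((s ^ (1 / p) : ℝ) : ℂ) * D.h (ee φ))
        = ENNReal.ofReal k * ∫⁻ x in A, G (((x.1 ^ (1 / p) : ℝ) : ℂ) * D.h (ee x.2)) := by
          congr 1
          rw [hA, Measure.volume_eq_prod, ← Measure.prod_restrict]
          exact (lintegral_prod (fun x : ℝ × ℝ => G (((x.1 ^ (1 / p) : ℝ) : ℂ) * D.h (ee x.2)))
            (hG.comp hTm).aemeasurable).symm
      _ = ∫⁻ x in A, ENNReal.ofReal k * G (((x.1 ^ (1 / p) : ℝ) : ℂ) * D.h (ee x.2)) := by
          have hGT : Measurable (fun x : ℝ × ℝ => G (((x.1 ^ (1 / p) : ℝ) : ℂ) * D.h (ee x.2))) := hG.comp hTm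
          rw [lintegral_const_mul _ hGT]
      _ = ∫⁻ x in A, ENNReal.ofReal |(dT D p x).det| * g ⟨(fT D p x).1, (fT D p x).2⟩ :=
          setLIntegral_congr_fun hAm hkey
      _ = ∫⁻ y in fT D p '' A, g ⟨y.1, y.2⟩ :=
          (lintegral_image_eq_lintegral_abs_det_fderiv_mul volume hAm
            (fun x hx => (hasFDerivAt_fT D p x (hAx x hx).1).hasFDerivWithinAt) hinj (fun y : ℝ × ℝ => g ⟨y.1, y.2⟩)).symm
      _ ≤ ∫⁻ y : ℝ × ℝ, g ⟨y.1, y.2⟩ := setLIntegral_le_lintegral _ _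
      _ = ∫⁻ t, G t * ENNReal.ofReal (D.rho p k t) := by rw [← hc, hg]

end Run7.h760.LP
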